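import Mathlib

/-!
# TC-Jac: the Jacobian criterion for algebraic independence (characteristic zero)

Let `Ψ α` (`α ∈ σ`) be polynomials in the variables `τ`, let `p` be a point, and suppose that the Jacobian matrix `(∂Ψ α / ∂ j)(p)` has a right inverse `K`.
Then `aeval Ψ Φ = 0` implies `Φ = 0`.

Proof by strong induction on `Φ.totalDegree`.  The chain rule: `0 = pderiv j (aeval Ψ Φ) = ∑ α, aeval Ψ (pderiv α Φ) * pderiv j (Ψ α)` (for all `Φ` by
`MvPolynomial.induction_on`, or `Derivation`-ext).  Let `G α = aeval Ψ (pderiv α Φ)` and `M β α = ∑ j, pderiv j (Ψ β) * C (K j α)`, a square matrix over the domain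
`MvPolynomial τ ℚ`; `G ᵥ* M = 0`, and the evaluation of `M` at `p` is the identity matrix, so `det M ≠ 0` (`RingHom.map_det`).  Hence `G = 0`
(`Matrix.eq_zero_of_vecMul_eq_zero`).  By induction (`totalDegree (pderiv α Φ) < totalDegree Φ` if `pderiv α Φ ≠ 0`, or use the statement for all `Φ` of total degree `≤ n`)
`pderiv α Φ = 0` for all `α`, so `Φ = C c` (compare coefficients, characteristic zero), and `aeval Ψ (C c) = C c = 0`.
-/

set_option autoImplicit false

open MvPolynomial Finset

namespace Helper87.TC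

theorem tcjac_chain {σ τ : Type} [Fintype σ] [DecidableEq σ] [Fintype τ] [DecidableEq τ] (Ψ : σ → MvPolynomial τ ℚ)
    (j : τ) (Φ : MvPolynomial σ ℚ) :
    pderiv j (aeval Ψ Φ) = ∑ α, aeval Ψ (pderiv α Φ) * pderiv j (Ψ α) := by
  induction Φ using MvPolynomial.induction_on with
  | C a => simp
  | add p q hp hq =>
    rw [map_add, map_add, hp, hq, ← Finset.sum_add_distrib]
    refine Finset.sum_congr rfl fun α _ => ?_
    rw [map_add, map_add, add_mul]
  | mul_X p n hp =>
    rw [map_mul, Derivation.leibniz, aeval_X, hp]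
    have : ∀ α, (pderiv α) (p * X n) = p * (if α = n then 1 else 0) + X n * pderiv α p := by
      intro α
      rw [Derivation.leibniz, smul_eq_mul, smul_eq_mul]
      congr 1
      by_cases h : α = n
      · subst h; simp
      · rw [pderiv_X_of_ne (fun hh => h hh.symm)]; simp [h]
    simp only [this, map_add, map_mul, aeval_X, add_mul, Finset.sum_add_distrib, smul_eq_mul]
    congr 1
    · rw [Finset.sum_eq_single n]
      · simp
      · intro b _ hb; simp [hb]
      · intro h; exact absurd (Finset.mem_univ _) h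
    · rw [Finset.mul_sum]
      refine Finset.sum_congr rfl fun α _ => by ring

theorem tcjac_total {σ : Type} [Fintype σ] [DecidableEq σ] (Φ : MvPolynomial σ ℚ) (n : ℕ)
    (hΦ : ∀ m ∈ Φ.support, ∑ i, m i ≤ n + 1) (α : σ) :
    ∀ m ∈ (pderiv α Φ).support, ∑ i, m i ≤ n := by
  intro m hm
  rw [mem_support_iff, coeff_pderiv] at hm
  have h1 : coeff (m + Finsupp.single α 1) Φ ≠ 0 := fun h => hm (by rw [h]; simp)
  have h2 := hΦ _ (mem_support_iff.2 h1)
  have h3 : ∑ i, (m + Finsupp.single α 1 : σ →₀ ℕ) i = ∑ i, m i + 1 := by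
    simp [Finset.sum_add_distrib, Finsupp.single_apply]
  omega

theorem tcjac_const {σ : Type} [Fintype σ] [DecidableEq σ] (Φ : MvPolynomial σ ℚ)
    (h : ∀ α, pderiv α Φ = 0) : Φ = C (coeff 0 Φ) := by
  ext m
  rw [coeff_C]
  split_ifs with hm
  · rw [hm]
  · have : ∃ α, m α ≠ 0 := by
      by_contra hc
      push Not at hc
      exact hm (by ext i; simp [hc i])
    obtain ⟨α, hα⟩ := this
    have h1 := congrArg (coeff (m - Finsupp.single α 1)) (h α)
    rw [coeff_pderiv] at h1
    have h2 : m - Finsupp.single α 1 + Finsupp.single α 1 = m := by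
      ext i
      simp only [Finsupp.coe_add, Finsupp.coe_tsub, Pi.add_apply, Pi.sub_apply, Finsupp.single_apply]
      split_ifs with hi
      · subst hi; omega
      · omega
    rw [h2] at h1
    simp only [coeff_zero, mul_eq_zero] at h1
    rcases h1 with h1 | h1
    · exact h1
    · exfalso
      have : (0:ℚ) ≤ (((m - Finsupp.single α 1 : σ →₀ ℕ) α : ℕ) : ℚ) := Nat.cast_nonneg _
      linarith

theorem jac {σ τ : Type} [Fintype σ] [DecidableEq σ] [Fintype τ] [DecidableEq τ] (Ψ : σ → MvPolynomial τ ℚ)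
    (p : τ → ℚ) (K : τ → σ → ℚ)
    (hK : ∀ β α, ∑ j, eval p (pderiv j (Ψ β)) * K j α = if β = α then 1 else 0)
    (Φ : MvPolynomial σ ℚ) (h : aeval Ψ Φ = 0) : Φ = 0 := by
  have key : ∀ n : ℕ, ∀ Φ : MvPolynomial σ ℚ, (∀ m ∈ Φ.support, ∑ i, m i ≤ n) → aeval Ψ Φ = 0 → Φ = 0 := by
    have fin : ∀ Φ : MvPolynomial σ ℚ, (∀ α, pderiv α Φ = 0) → aeval Ψ Φ = 0 → Φ = 0 := by
      intro Φ h1 h2
      have h3 := tcjac_const Φ h1
      rw [h3] at h2 ⊢
      rw [aeval_C] at h2
      have h4 : coeff 0 Φ = 0 := by
        have := congrArg (eval p) h2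
        simpa [MvPolynomial.algebraMap_eq] using this
      rw [h4, map_zero]
    intro n
    induction n with
    | zero =>
      intro Φ h1 h2
      refine fin Φ ?_ h2
      intro α
      ext m
      rw [coeff_pderiv, coeff_zero]
      have : coeff (m + Finsupp.single α 1) Φ = 0 := by
        by_contra hc
        have h3 := h1 _ (mem_support_iff.2 hc)
        have h4 : ∑ i, (m + Finsupp.single α 1 : σ →₀ ℕ) i = ∑ i, m i + 1 := by
          simp [Finset.sum_add_distrib, Finsupp.single_apply]
        omega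
      rw [this]; simp
    | succ n ih =>
      intro Φ h1 h2
      refine fin Φ ?_ h2
      -- G
      set G : σ → MvPolynomial τ ℚ := fun α => aeval Ψ (pderiv α Φ) with hG
      let M : Matrix σ σ (MvPolynomial τ ℚ) := fun β α => ∑ j, pderiv j (Ψ β) * C (K j α)
      have hM : Matrix.vecMul G M = 0 := by
        funext α
        simp only [Matrix.vecMul, dotProduct, Pi.zero_apply, M, G]
        have : ∀ j, ∑ β, aeval Ψ (pderiv β Φ) * pderiv j (Ψ β) = 0 := by
          intro j
          rw [← tcjac_chain, h2, map_zero]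
        calc ∑ β, aeval Ψ (pderiv β Φ) * ∑ j, pderiv j (Ψ β) * C (K j α)
            = ∑ β, ∑ j, aeval Ψ (pderiv β Φ) * pderiv j (Ψ β) * C (K j α) := by
              refine Finset.sum_congr rfl fun β _ => ?_
              rw [Finset.mul_sum]
              exact Finset.sum_congr rfl fun j _ => by ring
          _ = ∑ j, (∑ β, aeval Ψ (pderiv β Φ) * pderiv j (Ψ β)) * C (K j α) := by
              rw [Finset.sum_comm]
              exact Finset.sum_congr rfl fun j _ => by rw [Finset.sum_mul]
          _ = 0 := Finset.sum_eq_zero fun j _ => by rw [this j, zero_mul]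
      have hdet : M.det ≠ 0 := by
        intro hd
        have h3 := congrArg (eval p) hd
        rw [RingHom.map_det, map_zero] at h3
        have h4 : (eval p).mapMatrix M = 1 := by
          ext β α
          rw [RingHom.mapMatrix_apply, Matrix.map_apply, Matrix.one_apply, ← hK β α]
          change eval p (∑ j, pderiv j (Ψ β) * C (K j α)) = _
          rw [map_sum]
          exact Finset.sum_congr rfl fun j _ => by rw [map_mul, eval_C]
        rw [h4, Matrix.det_one] at h3
        exact one_ne_zero h3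
      have hG0 : G = 0 := Matrix.eq_zero_of_vecMul_eq_zero hdet hM
      intro α
      exact ih _ (tcjac_total Φ n h1 α) (congrFun hG0 α)
  obtain ⟨n, hn⟩ : ∃ n : ℕ, ∀ m ∈ Φ.support, ∑ i, m i ≤ n :=
    ⟨∑ m ∈ Φ.support, ∑ i, m i, fun m hm =>
      Finset.single_le_sum (f := fun m : σ →₀ ℕ => ∑ i, m i) (fun _ _ => Nat.zero_le _) hm⟩
  exact key n Φ hn h

end Helper87.TC
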