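import Mathlib
import Pool.Agent.Helper87.TC.Defs

/-!
# TC-Tri: the polarization of the norm and the Hessian

* `tri_mem`: `tri u v w = nm (u+v+w) - nm (u+v) - nm (u+w) - nm (v+w) + nm u + nm v + nm w`.
* `hess`: `2 Dl^2 * nm 3 w = det (tri (ev i) (ev j) w)_{ij}`.
* `hess_mul`: `Dl^2 * A1^k ≤ A1^(k+2)` for `k ≥ 1`.
-/

set_option autoImplicit false

open MvPolynomial Finset

namespace Helper87.TC

open Helper87.TR Helper87.TA Helper87.TB

theorem nm_mem (w : Fin 3 → ℚ) : nm 3 w ∈ A1 3 3 := Submodule.subset_span ⟨w, rfl⟩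

theorem nm_three (w : Fin 3 → ℚ) : nm 3 w = lin w 0 * lin w 1 * lin w 2 := by
  unfold nm
  rw [Fin.prod_univ_three]

theorem tri_lin_add (u v : Fin 3 → ℚ) (i : Fin 3) :
    (lin (u + v) i : MvPolynomial (Fin 3 × Fin 3) ℚ) = lin u i + lin v i := by
  unfold lin
  rw [← Finset.sum_add_distrib]
  refine Finset.sum_congr rfl fun j _ => ?_
  rw [Pi.add_apply, C_add, add_mul]

theorem tri_lin_ev (j i : Fin 3) : (lin (ev j) i : MvPolynomial (Fin 3 × Fin 3) ℚ) = X (i, j) := by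
  unfold lin ev
  rw [Finset.sum_eq_single j]
  · rw [if_pos rfl, C_1, one_mul]
  · intro k _ hk
    rw [if_neg hk, C_0, zero_mul]
  · intro h
    exact absurd (Finset.mem_univ j) h

theorem tri_mem (u v w : Fin 3 → ℚ) : tri u v w ∈ A1 3 3 := by
  have h : tri u v w = nm 3 (u + v + w) - nm 3 (u + v) - nm 3 (u + w) - nm 3 (v + w) + nm 3 u + nm 3 v + nm 3 w := by
    simp only [nm_three, tri_lin_add, tri]
    ring
  rw [h]
  exact add_mem (add_mem (add_mem (sub_mem (sub_mem (sub_mem (nm_mem _) (nm_mem _)) (nm_mem _)) (nm_mem _))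
    (nm_mem _)) (nm_mem _)) (nm_mem _)

theorem tri_self (w : Fin 3 → ℚ) : tri w w w = (6 : ℚ) • nm 3 w := by
  rw [nm_three, smul_eq_C_mul]
  have h6 : (C (6 : ℚ) : MvPolynomial (Fin 3 × Fin 3) ℚ) = 6 := by
    rw [show (6 : ℚ) = ((6 : ℕ) : ℚ) by norm_num, map_natCast]
    norm_num
  rw [h6]
  unfold tri
  ring

/-- products of three elements -/
theorem tri_mem_three {x y z : MvPolynomial (Fin 3 × Fin 3) ℚ} (hx : x ∈ A1 3 3) (hy : y ∈ A1 3 3)
    (hz : z ∈ A1 3 3) : x * y * z ∈ A1 3 3 ^ 3 := by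
  rw [pow_succ, pow_two]
  exact Submodule.mul_mem_mul (Submodule.mul_mem_mul hx hy) hz

theorem tri_hess_id (w : Fin 3 → ℚ) :
    2 * (Dl ^ 2 * nm 3 w) =
      tri (ev 0) (ev 0) w * tri (ev 1) (ev 1) w * tri (ev 2) (ev 2) w +
      tri (ev 0) (ev 1) w * tri (ev 1) (ev 2) w * tri (ev 2) (ev 0) w +
      tri (ev 0) (ev 2) w * tri (ev 1) (ev 0) w * tri (ev 2) (ev 1) w -
      tri (ev 0) (ev 2) w * tri (ev 1) (ev 1) w * tri (ev 2) (ev 0) w -
      tri (ev 0) (ev 1) w * tri (ev 1) (ev 0) w * tri (ev 2) (ev 2) w -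
      tri (ev 0) (ev 0) w * tri (ev 1) (ev 2) w * tri (ev 2) (ev 1) w := by
  rw [nm_three]
  simp only [tri, tri_lin_ev]
  unfold Dl dt mi
  ring

theorem hess (w : Fin 3 → ℚ) : Dl ^ 2 * nm 3 w ∈ A1 3 3 ^ 3 := by
  have h1 : 2 * (Dl ^ 2 * nm 3 w) ∈ A1 3 3 ^ 3 := by
    rw [tri_hess_id]
    have h := fun i j k l m n : Fin 3 => tri_mem_three (tri_mem (ev i) (ev j) w) (tri_mem (ev k) (ev l) w)
      (tri_mem (ev m) (ev n) w)
    exact sub_mem (sub_mem (sub_mem (add_mem (add_mem (h _ _ _ _ _ _) (h _ _ _ _ _ _)) (h _ _ _ _ _ _))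
      (h _ _ _ _ _ _)) (h _ _ _ _ _ _)) (h _ _ _ _ _ _)
  have h2 : Dl ^ 2 * nm 3 w = (1 / 2 : ℚ) • (2 * (Dl ^ 2 * nm 3 w)) := by
    have h3 : (2 : MvPolynomial (Fin 3 × Fin 3) ℚ) * (Dl ^ 2 * nm 3 w) = (2 : ℚ) • (Dl ^ 2 * nm 3 w) := by
      rw [smul_eq_C_mul]
      congr 1
    rw [h3, smul_smul]
    norm_num
  rw [h2]
  exact Submodule.smul_mem _ _ h1

theorem hess_mul (k : ℕ) (hk : 1 ≤ k) (x : MvPolynomial (Fin 3 × Fin 3) ℚ) (hx : x ∈ A1 3 3 ^ k) :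
    Dl ^ 2 * x ∈ A1 3 3 ^ (k + 2) := by
  obtain ⟨l, rfl⟩ : ∃ l, k = l + 1 := ⟨k - 1, by omega⟩
  rw [pow_succ] at hx
  have h1 : ∀ y ∈ A1 3 3, Dl ^ 2 * y ∈ A1 3 3 ^ 3 := by
    intro y hy
    unfold A1 at hy
    refine Submodule.span_induction ?_ ?_ ?_ ?_ hy
    · rintro _ ⟨w, rfl⟩
      exact hess w
    · rw [mul_zero]
      exact zero_mem _
    · intro a b _ _ ha hb
      rw [mul_add]
      exact add_mem ha hb
    · intro c a _ ha
      rw [mul_smul_comm]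
      exact Submodule.smul_mem _ _ ha
  refine Submodule.mul_induction_on hx ?_ ?_
  · intro a ha b hb
    have h2 : Dl ^ 2 * (a * b) = a * (Dl ^ 2 * b) := by ring
    rw [h2, show l + 1 + 2 = l + 3 by omega, pow_add]
    exact Submodule.mul_mem_mul ha (h1 b hb)
  · intro a b ha hb
    rw [mul_add]
    exact add_mem ha hb

end Helper87.TC
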