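import Mathlib
import Pool.Agent.Helper87.TC.Defs
import Pool.Agent.Helper87.TC.St.Tri
import Pool.Agent.Helper87.TC.St.Jac

/-!
# TC-Cub: sums of four cubes are dense in the ternary cubics

`mexp : Fin 10 → Fin 3 → ℕ` lists the exponents of degree `3` in three variables, `xm α` is the coefficient of `w^α` in `nm 3 w`
(`nm_expand`).  `cub`: a polynomial function in ten variables that vanishes at all sums `(∑ t, s t * w_t^α)_α` of four cubes is zero.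

* `xm_mem`: `xm α` is a multiple (`1`, `1/2` or `1/6`) of `tri (ev a) (ev b) (ev c)`.
* `nm_expand`: `nm 3 w = ∑ α, C (∏ j, w j ^ mexp α j) * xm α` (unfold everything and `ring`).
* `cub`: `jac` with `τ = Fin 4 × Fin 4`, the variables `(t, 0), (t, 1), (t, 2)` for the coordinates of `w_t` and `(t, 3)` for `s_t`,
  `Ψ α = ∑ t, X (t, 3) * ∏ j, X (t, j) ^ mexp α j`, at the point `w_0 = e_0`, `w_1 = e_1`, `w_2 = e_2`, `w_3 = (1, 1, 1)`, `s = (1, 1, 1, 1)`.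
  The derivatives at this point: with respect to `w_0`: `3 e_{300}`, `e_{210}`, `e_{201}` (as vectors indexed by the exponents), similarly for `w_1`, `w_2`; with
  respect to the first coordinate of `w_3`: `(mexp α 0)_α`; so a right inverse `K` exists (`K` can be computed by hand: `e_{300}`, ..., `e_{012}` are multiples of
  derivatives with respect to `w_0, w_1, w_2`, and `e_{111}` is the derivative with respect to the first coordinate of `w_3` minus a combination of them).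
  The function `Φ ∘ Ψ` vanishes at all rational points, so the polynomial `aeval Ψ Φ` is zero (`MvPolynomial.funext`, `eval` of `aeval`).
-/

set_option autoImplicit false

open MvPolynomial Finset

namespace Helper87.TC

open Helper87.TR Helper87.TA Helper87.TB

/-- the exponents of degree three -/
def mexp : Fin 10 → Fin 3 → ℕ :=
  ![![3, 0, 0], ![0, 3, 0], ![0, 0, 3], ![2, 1, 0], ![2, 0, 1], ![1, 2, 0], ![0, 2, 1], ![1, 0, 2], ![0, 1, 2],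
    ![1, 1, 1]]

/-- the coefficients of the norm -/
noncomputable def xm : Fin 10 → MvPolynomial (Fin 3 × Fin 3) ℚ :=
  ![nm 3 (ev 0), nm 3 (ev 1), nm 3 (ev 2), (1 / 2 : ℚ) • tri (ev 0) (ev 0) (ev 1),
    (1 / 2 : ℚ) • tri (ev 0) (ev 0) (ev 2), (1 / 2 : ℚ) • tri (ev 0) (ev 1) (ev 1),
    (1 / 2 : ℚ) • tri (ev 1) (ev 1) (ev 2), (1 / 2 : ℚ) • tri (ev 0) (ev 2) (ev 2),
    (1 / 2 : ℚ) • tri (ev 1) (ev 2) (ev 2), tri (ev 0) (ev 1) (ev 2)]

theorem xm_mem (α : Fin 10) : xm α ∈ A1 3 3 := by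
  have h1 := fun j => nm_mem (ev j)
  have h2 := fun i j k => tri_mem (ev i) (ev j) (ev k)
  have h3 := fun i j k => Submodule.smul_mem (A1 3 3) (1 / 2 : ℚ) (h2 i j k)
  fin_cases α
  · exact h1 0
  · exact h1 1
  · exact h1 2
  · exact h3 0 0 1
  · exact h3 0 0 2
  · exact h3 0 1 1
  · exact h3 1 1 2
  · exact h3 0 2 2
  · exact h3 1 2 2
  · exact h2 0 1 2

theorem tccub_half (y : MvPolynomial (Fin 3 × Fin 3) ℚ) : (1 / 2 : ℚ) • (2 * y) = y := by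
  have h3 : (2 : MvPolynomial (Fin 3 × Fin 3) ℚ) * y = (2 : ℚ) • y := by
    rw [smul_eq_C_mul]
    congr 1
  rw [h3, smul_smul]
  norm_num

theorem nm_expand (w : Fin 3 → ℚ) : nm 3 w = ∑ α, (∏ j, w j ^ mexp α j) • xm α := by
  have e1 : tri (ev 0) (ev 0) (ev 1) = 2 * (X (0, 0) * X (1, 0) * X (2, 1) + X (1, 0) * X (2, 0) * X (0, 1) +
      X (2, 0) * X (0, 0) * X (1, 1)) := by
    simp only [tri, tri_lin_ev]; ring
  have e2 : tri (ev 0) (ev 0) (ev 2) = 2 * (X (0, 0) * X (1, 0) * X (2, 2) + X (1, 0) * X (2, 0) * X (0, 2) +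
      X (2, 0) * X (0, 0) * X (1, 2)) := by
    simp only [tri, tri_lin_ev]; ring
  have e3 : tri (ev 0) (ev 1) (ev 1) = 2 * (X (0, 0) * X (1, 1) * X (2, 1) + X (1, 0) * X (2, 1) * X (0, 1) +
      X (2, 0) * X (0, 1) * X (1, 1)) := by
    simp only [tri, tri_lin_ev]; ring
  have e4 : tri (ev 1) (ev 1) (ev 2) = 2 * (X (0, 1) * X (1, 1) * X (2, 2) + X (1, 1) * X (2, 1) * X (0, 2) +
      X (2, 1) * X (0, 1) * X (1, 2)) := by
    simp only [tri, tri_lin_ev]; ring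
  have e5 : tri (ev 0) (ev 2) (ev 2) = 2 * (X (0, 0) * X (1, 2) * X (2, 2) + X (1, 0) * X (2, 2) * X (0, 2) +
      X (2, 0) * X (0, 2) * X (1, 2)) := by
    simp only [tri, tri_lin_ev]; ring
  have e6 : tri (ev 1) (ev 2) (ev 2) = 2 * (X (0, 1) * X (1, 2) * X (2, 2) + X (1, 1) * X (2, 2) * X (0, 2) +
      X (2, 1) * X (0, 2) * X (1, 2)) := by
    simp only [tri, tri_lin_ev]; ring
  have hs : ∑ α, (∏ j, w j ^ mexp α j) • xm α =
      (w 0 ^ 3) • nm 3 (ev 0) + (w 1 ^ 3) • nm 3 (ev 1) + (w 2 ^ 3) • nm 3 (ev 2) +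
      (w 0 ^ 2 * w 1) • ((1 / 2 : ℚ) • tri (ev 0) (ev 0) (ev 1)) +
      (w 0 ^ 2 * w 2) • ((1 / 2 : ℚ) • tri (ev 0) (ev 0) (ev 2)) +
      (w 0 * w 1 ^ 2) • ((1 / 2 : ℚ) • tri (ev 0) (ev 1) (ev 1)) +
      (w 1 ^ 2 * w 2) • ((1 / 2 : ℚ) • tri (ev 1) (ev 1) (ev 2)) +
      (w 0 * w 2 ^ 2) • ((1 / 2 : ℚ) • tri (ev 0) (ev 2) (ev 2)) +
      (w 1 * w 2 ^ 2) • ((1 / 2 : ℚ) • tri (ev 1) (ev 2) (ev 2)) +
      (w 0 * w 1 * w 2) • tri (ev 0) (ev 1) (ev 2) := by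
    simp [Fin.sum_univ_succ, Fin.prod_univ_three, mexp, xm]
    ring
  rw [hs, e1, e2, e3, e4, e5, e6]
  simp only [tccub_half]
  simp only [nm_three, tri, tri_lin_ev]
  simp only [lin, Fin.sum_univ_three, smul_eq_C_mul, C_mul, C_pow]
  ring

/-- sums of four cubes -/
noncomputable def tccub_Psi (α : Fin 10) : MvPolynomial (Fin 4 × Fin 4) ℚ :=
  ∑ t : Fin 4, X (t, 3) * (X (t, 0) ^ mexp α 0 * X (t, 1) ^ mexp α 1 * X (t, 2) ^ mexp α 2)

/-- the point -/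
def tccub_p : Fin 4 × Fin 4 → ℤ := fun q =>
  (![![1, 0, 0, 1], ![0, 1, 0, 1], ![0, 0, 1, 1], ![1, 1, 1, 1]] : Fin 4 → Fin 4 → ℤ) q.1 q.2

/-- the Jacobian matrix at the point -/
def tccub_D (α : Fin 10) (i : Fin 4 × Fin 4) : ℤ :=
  (![![![3, 0, 0, 1], ![0, 0, 0, 0], ![0, 0, 0, 0], ![3, 0, 0, 1]],
     ![![0, 0, 0, 0], ![0, 3, 0, 1], ![0, 0, 0, 0], ![0, 3, 0, 1]],
     ![![0, 0, 0, 0], ![0, 0, 0, 0], ![0, 0, 3, 1], ![0, 0, 3, 1]],
     ![![0, 1, 0, 0], ![0, 0, 0, 0], ![0, 0, 0, 0], ![2, 1, 0, 1]],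
     ![![0, 0, 1, 0], ![0, 0, 0, 0], ![0, 0, 0, 0], ![2, 0, 1, 1]],
     ![![0, 0, 0, 0], ![1, 0, 0, 0], ![0, 0, 0, 0], ![1, 2, 0, 1]],
     ![![0, 0, 0, 0], ![0, 0, 1, 0], ![0, 0, 0, 0], ![0, 2, 1, 1]],
     ![![0, 0, 0, 0], ![0, 0, 0, 0], ![1, 0, 0, 0], ![1, 0, 2, 1]],
     ![![0, 0, 0, 0], ![0, 0, 0, 0], ![0, 1, 0, 0], ![0, 1, 2, 1]],
     ![![0, 0, 0, 0], ![0, 0, 0, 0], ![0, 0, 0, 0], ![1, 1, 1, 1]]] : Fin 10 → Fin 4 → Fin 4 → ℤ) α i.1 i.2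

/-- three times the right inverse of the Jacobian matrix -/
def tccub_K (i : Fin 4 × Fin 4) (α : Fin 10) : ℤ :=
  (![![![1, 0, 0, 0], ![0, 0, 0, 0], ![0, 0, 0, 0], ![0, 0, 0, 0]],
     ![![0, 0, 0, 0], ![0, 1, 0, 0], ![0, 0, 0, 0], ![0, 0, 0, 0]],
     ![![0, 0, 0, 0], ![0, 0, 0, 0], ![0, 0, 1, 0], ![0, 0, 0, 0]],
     ![![0, 3, 0, 0], ![0, 0, 0, 0], ![0, 0, 0, 0], ![0, 0, 0, 0]],
     ![![0, 0, 3, 0], ![0, 0, 0, 0], ![0, 0, 0, 0], ![0, 0, 0, 0]],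
     ![![0, 0, 0, 0], ![3, 0, 0, 0], ![0, 0, 0, 0], ![0, 0, 0, 0]],
     ![![0, 0, 0, 0], ![0, 0, 3, 0], ![0, 0, 0, 0], ![0, 0, 0, 0]],
     ![![0, 0, 0, 0], ![0, 0, 0, 0], ![3, 0, 0, 0], ![0, 0, 0, 0]],
     ![![0, 0, 0, 0], ![0, 0, 0, 0], ![0, 3, 0, 0], ![0, 0, 0, 0]],
     ![![-3, -6, -6, 0], ![-3, 0, 0, 0], ![-3, 0, 0, 0], ![3, 0, 0, 0]]] : Fin 10 → Fin 4 → Fin 4 → ℤ) α i.1 i.2

theorem tccub_DK : ∀ β α : Fin 10, ∑ j : Fin 4 × Fin 4, tccub_D β j * tccub_K j α = if β = α then 3 else 0 := by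
  decide

/-- the general formula for the derivatives -/
def tccub_F (β : Fin 10) (j : Fin 4 × Fin 4) : ℤ :=
  ∑ t : Fin 4, ((if j = (t, 3) then 1 else 0) * (tccub_p (t, 0) ^ mexp β 0 * tccub_p (t, 1) ^ mexp β 1 * tccub_p (t, 2) ^ mexp β 2) +
    tccub_p (t, 3) * ((mexp β 0 : ℤ) * tccub_p (t, 0) ^ (mexp β 0 - 1) * (if j = (t, 0) then 1 else 0) * tccub_p (t, 1) ^ mexp β 1 * tccub_p (t, 2) ^ mexp β 2 +
      tccub_p (t, 0) ^ mexp β 0 * ((mexp β 1 : ℤ) * tccub_p (t, 1) ^ (mexp β 1 - 1) * (if j = (t, 1) then 1 else 0)) * tccub_p (t, 2) ^ mexp β 2 +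
      tccub_p (t, 0) ^ mexp β 0 * tccub_p (t, 1) ^ mexp β 1 * ((mexp β 2 : ℤ) * tccub_p (t, 2) ^ (mexp β 2 - 1) * (if j = (t, 2) then 1 else 0))))

theorem tccub_FD : ∀ (β : Fin 10) (j : Fin 4 × Fin 4), tccub_F β j = tccub_D β j := by
  decide

theorem tccub_jac (β : Fin 10) (j : Fin 4 × Fin 4) :
    eval (fun q => (tccub_p q : ℚ)) (pderiv j (tccub_Psi β)) = (tccub_D β j : ℚ) := by
  rw [← tccub_FD]
  unfold tccub_Psi tccub_F
  rw [map_sum, map_sum, Int.cast_sum]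
  refine Finset.sum_congr rfl fun t _ => ?_
  have hX : ∀ k : Fin 4 × Fin 4, eval (fun q => (tccub_p q : ℚ)) (pderiv j (X k)) = if j = k then 1 else 0 := by
    intro k
    rw [pderiv_X, Pi.single_apply]
    by_cases h : j = k
    · rw [if_pos h, if_pos h.symm, map_one]
    · rw [if_neg h, if_neg (fun h' => h h'.symm), map_zero]
  simp only [Derivation.leibniz, Derivation.leibniz_pow, smul_eq_mul, nsmul_eq_mul, map_add, map_mul, map_pow, eval_X, hX, map_natCast]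
  push_cast
  ring

theorem cub (Φ : MvPolynomial (Fin 10) ℚ)
    (h : ∀ (s : Fin 4 → ℚ) (w : Fin 4 → Fin 3 → ℚ),
      eval (fun α => ∑ t, s t * ∏ j, w t j ^ mexp α j) Φ = 0) : Φ = 0 := by
  refine jac tccub_Psi (fun q => (tccub_p q : ℚ)) (fun j α => (tccub_K j α : ℚ) / 3) ?_ Φ ?_
  · intro β α
    have h1 : ∑ j : Fin 4 × Fin 4, eval (fun q => (tccub_p q : ℚ)) (pderiv j (tccub_Psi β)) * ((tccub_K j α : ℚ) / 3) =
        ((∑ j : Fin 4 × Fin 4, tccub_D β j * tccub_K j α : ℤ) : ℚ) / 3 := by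
      rw [Int.cast_sum, Finset.sum_div]
      refine Finset.sum_congr rfl fun j _ => ?_
      rw [tccub_jac]
      push_cast
      ring
    rw [h1, tccub_DK]
    split_ifs <;> norm_num
  · refine MvPolynomial.funext fun q => ?_
    have h2 : eval q (aeval tccub_Psi Φ) = eval (fun α => eval q (tccub_Psi α)) Φ := by
      have h3 := comp_aeval_apply (aeval q : MvPolynomial (Fin 4 × Fin 4) ℚ →ₐ[ℚ] ℚ) (f := tccub_Psi) Φ
      simpa only [aeval_eq_eval] using h3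
    rw [map_zero, h2, ← h (fun t => q (t, 3)) (fun t j => q (t, j.castSucc))]
    congr 2
    funext α
    unfold tccub_Psi
    rw [map_sum]
    refine Finset.sum_congr rfl fun t _ => ?_
    rw [Fin.prod_univ_three]
    simp only [map_mul, map_pow, eval_X]
    rfl

end Helper87.TC
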