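import Mathlib
import Pool.Agent.Helper87.TC.Defs
import Pool.Agent.Helper87.TC.St.Cub
import Pool.Agent.Helper87.TA.St.Pow
import Pool.Agent.Helper87.TA.St.Interp
import Pool.Agent.Helper87.TA.St.Ryser

/-!
# TC-Dens: products of powers of four norms span

Let `W = span (P4 n)`.  If `A1^n` is not contained in `W`, there is a linear functional `lam` on the polynomials that vanishes on `W` and not on `A1^n` (`Submodule.exists_le_ker_of_notMem`,
or `Submodule.exists_dual_map_eq_bot`-type lemma).  Let `Φ ∈ MvPolynomial (Fin 10) ℚ` be the polynomial with `eval y Φ = lam ((∑ α, y α • xm α)^n)` for all `y : Fin 10 → ℚ` (expand the power with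
`Finset.sum_pow_eq_sum_piAntidiag` or define it as `∑ e, multinomial * lam (∏ xm^e) * monomial`).
For `y α = ∑ t, s t * ∏ j, w t j ^ mexp α j` one has `∑ α, y α • xm α = ∑ t, s t • nm 3 (w t)` by `nm_expand`, and the `n`-th power of this is a combination of the products
`∏ t, nm 3 (w t) ^ d t` with `∑ d = n`, on which `lam` vanishes.  So `Φ = 0` by `cub`, and `lam` vanishes on all the `n`-th powers `(∑ α, y α • xm α)^n`, in particular on
`(∑ l : Fin n, c l • nm 3 (v l))^n` for all `c l ∈ ℚ`, `v l ∈ ℚ^3` (by `nm_expand`); the products `∏ l, nm 3 (v l)` are in the span of these `n`-th powers (polarization: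
`Helper87.TA.polar` in `TA/St/Ryser.lean`), so `lam` vanishes on them and on `A1^n` (`Helper87.TA.pow_range` in `TA/St/Pow.lean`), a contradiction.
-/

set_option autoImplicit false

open MvPolynomial Finset

namespace Helper87.TC

open Helper87.TR Helper87.TA Helper87.TB

/-- powers of combinations of four norms are combinations of products of powers -/
theorem tcdens_pow_mem (n : ℕ) (s : Fin 4 → ℚ) (w : Fin 4 → Fin 3 → ℚ) :
    (∑ t, s t • nm 3 (w t)) ^ n ∈ Submodule.span ℚ (P4 n) := by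
  have h1 : (∑ t, s t • nm 3 (w t)) ∈
      Submodule.span ℚ ((fun t => nm 3 (w t)) '' ((univ : Finset (Fin 4)) : Set (Fin 4))) := by
    refine Submodule.sum_mem _ fun t _ => Submodule.smul_mem _ _ (Submodule.subset_span ?_)
    exact ⟨t, by simp, rfl⟩
  have h2 := pow_span (univ : Finset (Fin 4)) (fun t => nm 3 (w t)) n (Submodule.pow_mem_pow _ h1 n)
  refine Submodule.span_mono ?_ h2
  rintro x ⟨d, hd, rfl⟩
  exact ⟨w, d, hd, rfl⟩

/-- the polynomial whose values are the values of a functional at the powers of a combination -/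
noncomputable def tcdens_Phi (n : ℕ) (lam : MvPolynomial (Fin 3 × Fin 3) ℚ →ₗ[ℚ] ℚ) :
    MvPolynomial (Fin 10) ℚ :=
  ∑ k ∈ (univ : Finset (Fin 10)).piAntidiag n,
    C ((Nat.multinomial univ k : ℚ) * lam (∏ α, xm α ^ k α)) * ∏ α, X α ^ k α

theorem tcdens_eval (n : ℕ) (lam : MvPolynomial (Fin 3 × Fin 3) ℚ →ₗ[ℚ] ℚ) (y : Fin 10 → ℚ) :
    eval y (tcdens_Phi n lam) = lam ((∑ α, y α • xm α) ^ n) := by
  rw [Finset.sum_pow_eq_sum_piAntidiag, map_sum, tcdens_Phi, map_sum]
  refine Finset.sum_congr rfl fun k _ => ?_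
  have h1 : (∏ α, (y α • xm α) ^ k α) = (∏ α, y α ^ k α) • ∏ α, xm α ^ k α := by
    simp only [smul_pow]
    rw [Finset.prod_smul]
  have h2 : ((Nat.multinomial univ k : ℕ) : MvPolynomial (Fin 3 × Fin 3) ℚ) * (∏ α, (y α • xm α) ^ k α) =
      ((Nat.multinomial univ k : ℚ) * (∏ α, y α ^ k α)) • ∏ α, xm α ^ k α := by
    rw [h1, mul_smul, ← nsmul_eq_mul, Nat.cast_smul_eq_nsmul]
  rw [h2, map_smul, map_mul, eval_C, map_prod (eval y), smul_eq_mul]
  simp only [map_pow, eval_X]
  ring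

theorem dens4 (n : ℕ) : A1 3 3 ^ n ≤ Submodule.span ℚ (P4 n) := by
  refine (pow_range _ n).trans ?_
  rw [Submodule.span_le]
  rintro _ ⟨v, rfl⟩
  by_contra hx
  obtain ⟨lam, hlam, hker⟩ := Submodule.exists_le_ker_of_notMem hx
  have hW : ∀ x ∈ Submodule.span ℚ (P4 n), lam x = 0 := fun x hx => hker hx
  have hPhi : tcdens_Phi n lam = 0 := by
    refine cub _ fun s w => ?_
    rw [tcdens_eval]
    have h1 : (∑ α, (∑ t, s t * ∏ j, w t j ^ mexp α j) • xm α) = ∑ t, s t • nm 3 (w t) := by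
      simp only [Finset.sum_smul]
      rw [Finset.sum_comm]
      refine Finset.sum_congr rfl fun t _ => ?_
      rw [nm_expand (w t), Finset.smul_sum]
      refine Finset.sum_congr rfl fun α _ => ?_
      rw [mul_smul]
    rw [h1]
    exact hW _ (tcdens_pow_mem n s w)
  have hpow : ∀ y : Fin 10 → ℚ, lam ((∑ α, y α • xm α) ^ n) = 0 := by
    intro y
    rw [← tcdens_eval, hPhi, map_zero]
  have hS : ∀ S : Finset (Fin n), lam ((∑ l ∈ S, nm 3 (v l)) ^ n) = 0 := by
    intro S
    have h1 : (∑ l ∈ S, nm 3 (v l)) = ∑ α, (∑ l ∈ S, ∏ j, v l j ^ mexp α j) • xm α := by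
      simp only [Finset.sum_smul]
      rw [Finset.sum_comm]
      exact Finset.sum_congr rfl fun l _ => nm_expand (v l)
    rw [h1]
    exact hpow _
  have h3 := polar (fun l => nm 3 (v l))
  have h4 : lam ((n.factorial : MvPolynomial (Fin 3 × Fin 3) ℚ) * ∏ l, nm 3 (v l)) = 0 := by
    rw [h3, map_sum]
    refine Finset.sum_eq_zero fun S _ => ?_
    have h5 : ((-1 : MvPolynomial (Fin 3 × Fin 3) ℚ) ^ (n - S.card)) *
        (∑ l ∈ S, nm 3 (v l)) ^ n = ((-1 : ℚ) ^ (n - S.card)) • (∑ l ∈ S, nm 3 (v l)) ^ n := by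
      rw [MvPolynomial.smul_eq_C_mul]
      simp
    rw [h5, map_smul, hS S, smul_zero]
  have h6 : ((n.factorial : MvPolynomial (Fin 3 × Fin 3) ℚ) * ∏ l, nm 3 (v l)) =
      (n.factorial : ℚ) • ∏ l, nm 3 (v l) := by
    rw [← nsmul_eq_mul, Nat.cast_smul_eq_nsmul]
  rw [h6, map_smul, smul_eq_mul] at h4
  have h7 : (n.factorial : ℚ) ≠ 0 := by exact_mod_cast n.factorial_ne_zero
  exact hlam ((mul_eq_zero.1 h4).resolve_left h7)

end Helper87.TC
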