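import Mathlib
import Pool.Agent.Helper87.TC.Defs
import Pool.Agent.Helper87.TC.St.Tri

/-!
# TC-Base: two identities

`Dl * DD` is a cubic form and `Dl ^ 4` a quartic form (the Aronhold invariant) in the coefficients of the norm.
-/

set_option autoImplicit false

open MvPolynomial Finset

namespace Helper87.TC

open Helper87.TA Helper87.TB

theorem base_q3 (c : ℚ) {x y z : MvPolynomial (Fin 3 × Fin 3) ℚ} (hx : x ∈ A1 3 3) (hy : y ∈ A1 3 3)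
    (hz : z ∈ A1 3 3) : C c * (x * y * z) ∈ A1 3 3 ^ 3 := by
  rw [← smul_eq_C_mul]
  exact Submodule.smul_mem _ _ (tri_mem_three hx hy hz)

theorem base_q4 (c : ℚ) {x y z t : MvPolynomial (Fin 3 × Fin 3) ℚ} (hx : x ∈ A1 3 3) (hy : y ∈ A1 3 3)
    (hz : z ∈ A1 3 3) (ht : t ∈ A1 3 3) : C c * (x * y * z * t) ∈ A1 3 3 ^ 4 := by
  rw [← smul_eq_C_mul, pow_succ]
  exact Submodule.smul_mem _ _ (Submodule.mul_mem_mul (tri_mem_three hx hy hz) ht)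

theorem base_div {n : ℕ} (c : ℚ) (hc : c ≠ 0) {x : MvPolynomial (Fin 3 × Fin 3) ℚ}
    (h : C c * x ∈ A1 3 3 ^ n) : x ∈ A1 3 3 ^ n := by
  have h1 := Submodule.smul_mem (A1 3 3 ^ n) c⁻¹ h
  rwa [smul_eq_C_mul, ← mul_assoc, ← C_mul, inv_mul_cancel₀ hc, C_1, one_mul] at h1

theorem base_DD_id : C (4 : ℚ) * (Dl * DD) =
      C (6 : ℚ) * (tri (ev 1) (ev 1) (ev 2) * tri (ev 0) (ev 1) (ev 1) * nm 3 (ev 0))
      - C (1 : ℚ) * (tri (ev 1) (ev 1) (ev 2) * tri (ev 0) (ev 0) (ev 1) * tri (ev 0) (ev 0) (ev 1))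
      - C (36 : ℚ) * (nm 3 (ev 1) * tri (ev 0) (ev 1) (ev 2) * nm 3 (ev 0))
      + C (6 : ℚ) * (nm 3 (ev 1) * tri (ev 0) (ev 0) (ev 2) * tri (ev 0) (ev 0) (ev 1))
      + C (1 : ℚ) * (tri (ev 0) (ev 1) (ev 2) * tri (ev 0) (ev 1) (ev 1) * tri (ev 0) (ev 0) (ev 1))
      - C (1 : ℚ) * (tri (ev 0) (ev 1) (ev 1) * tri (ev 0) (ev 1) (ev 1) * tri (ev 0) (ev 0) (ev 2)) := by
  simp only [map_ofNat, map_one, nm_three, tri, tri_lin_ev]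
  unfold Dl DD dt mi
  ring

theorem base_DD : Dl * DD ∈ A1 3 3 ^ 3 := by
  refine base_div 4 (by norm_num) ?_
  rw [base_DD_id]
  have T := tri_mem
  have N := nm_mem
  exact sub_mem (add_mem (add_mem (sub_mem (sub_mem (base_q3 _ (T _ _ _) (T _ _ _) (N _))
    (base_q3 _ (T _ _ _) (T _ _ _) (T _ _ _))) (base_q3 _ (N _) (T _ _ _) (N _)))
    (base_q3 _ (N _) (T _ _ _) (T _ _ _))) (base_q3 _ (T _ _ _) (T _ _ _) (T _ _ _)))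
    (base_q3 _ (T _ _ _) (T _ _ _) (T _ _ _))

theorem base_four_id : C (16 : ℚ) * Dl ^ 4 =
      C (288 : ℚ) * (nm 3 (ev 2) * tri (ev 1) (ev 1) (ev 2) * tri (ev 0) (ev 1) (ev 1) * nm 3 (ev 0))
      - C (144 : ℚ) * (nm 3 (ev 2) * tri (ev 1) (ev 1) (ev 2) * tri (ev 0) (ev 0) (ev 1) * tri (ev 0) (ev 0) (ev 1))
      - C (3456 : ℚ) * (nm 3 (ev 2) * nm 3 (ev 1) * tri (ev 0) (ev 1) (ev 2) * nm 3 (ev 0))
      + C (288 : ℚ) * (nm 3 (ev 2) * nm 3 (ev 1) * tri (ev 0) (ev 0) (ev 2) * tri (ev 0) (ev 0) (ev 1))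
      + C (288 : ℚ) * (nm 3 (ev 2) * tri (ev 0) (ev 1) (ev 2) * tri (ev 0) (ev 1) (ev 1) * tri (ev 0) (ev 0) (ev 1))
      - C (144 : ℚ) * (nm 3 (ev 2) * tri (ev 0) (ev 1) (ev 1) * tri (ev 0) (ev 1) (ev 1) * tri (ev 0) (ev 0) (ev 2))
      + C (16 : ℚ) * (tri (ev 1) (ev 2) (ev 2) * tri (ev 1) (ev 2) (ev 2) * tri (ev 0) (ev 0) (ev 1) * tri (ev 0) (ev 0) (ev 1))
      + C (8 : ℚ) * (tri (ev 1) (ev 2) (ev 2) * tri (ev 1) (ev 1) (ev 2) * tri (ev 0) (ev 0) (ev 2) * tri (ev 0) (ev 0) (ev 1))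
      + C (1152 : ℚ) * (tri (ev 1) (ev 2) (ev 2) * nm 3 (ev 1) * tri (ev 0) (ev 2) (ev 2) * nm 3 (ev 0))
      - C (144 : ℚ) * (tri (ev 1) (ev 2) (ev 2) * nm 3 (ev 1) * tri (ev 0) (ev 0) (ev 2) * tri (ev 0) (ev 0) (ev 2))
      - C (64 : ℚ) * (tri (ev 1) (ev 2) (ev 2) * tri (ev 0) (ev 2) (ev 2) * tri (ev 0) (ev 1) (ev 1) * tri (ev 0) (ev 0) (ev 1))
      - C (32 : ℚ) * (tri (ev 1) (ev 2) (ev 2) * tri (ev 0) (ev 1) (ev 2) * tri (ev 0) (ev 1) (ev 2) * tri (ev 0) (ev 0) (ev 1))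
      + C (48 : ℚ) * (tri (ev 1) (ev 2) (ev 2) * tri (ev 0) (ev 1) (ev 2) * tri (ev 0) (ev 1) (ev 1) * tri (ev 0) (ev 0) (ev 2))
      - C (144 : ℚ) * (tri (ev 1) (ev 1) (ev 2) * tri (ev 1) (ev 1) (ev 2) * tri (ev 0) (ev 2) (ev 2) * nm 3 (ev 0))
      + C (16 : ℚ) * (tri (ev 1) (ev 1) (ev 2) * tri (ev 1) (ev 1) (ev 2) * tri (ev 0) (ev 0) (ev 2) * tri (ev 0) (ev 0) (ev 2))
      + C (48 : ℚ) * (tri (ev 1) (ev 1) (ev 2) * tri (ev 0) (ev 2) (ev 2) * tri (ev 0) (ev 1) (ev 2) * tri (ev 0) (ev 0) (ev 1))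
      + C (8 : ℚ) * (tri (ev 1) (ev 1) (ev 2) * tri (ev 0) (ev 2) (ev 2) * tri (ev 0) (ev 1) (ev 1) * tri (ev 0) (ev 0) (ev 2))
      - C (32 : ℚ) * (tri (ev 1) (ev 1) (ev 2) * tri (ev 0) (ev 1) (ev 2) * tri (ev 0) (ev 1) (ev 2) * tri (ev 0) (ev 0) (ev 2))
      + C (16 : ℚ) * (tri (ev 0) (ev 2) (ev 2) * tri (ev 0) (ev 2) (ev 2) * tri (ev 0) (ev 1) (ev 1) * tri (ev 0) (ev 1) (ev 1))
      - C (32 : ℚ) * (tri (ev 0) (ev 2) (ev 2) * tri (ev 0) (ev 1) (ev 2) * tri (ev 0) (ev 1) (ev 2) * tri (ev 0) (ev 1) (ev 1))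
      + C (16 : ℚ) * (tri (ev 0) (ev 1) (ev 2) * tri (ev 0) (ev 1) (ev 2) * tri (ev 0) (ev 1) (ev 2) * tri (ev 0) (ev 1) (ev 2)) := by
  simp only [map_ofNat, nm_three, tri, tri_lin_ev]
  unfold Dl dt mi
  ring

theorem base_four : Dl ^ 4 ∈ A1 3 3 ^ 4 := by
  refine base_div 16 (by norm_num) ?_
  rw [base_four_id]
  have T := tri_mem
  have N := nm_mem
  exact (add_mem (sub_mem (add_mem (sub_mem (add_mem (add_mem (add_mem (sub_mem (add_mem (sub_mem (sub_mem (sub_mem (add_mem (add_mem (add_mem (sub_mem (add_mem (add_mem (sub_mem (sub_mem (base_q4 _ (N _) (T _ _ _) (T _ _ _) (N _))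
    (base_q4 _ (N _) (T _ _ _) (T _ _ _) (T _ _ _)))
    (base_q4 _ (N _) (N _) (T _ _ _) (N _)))
    (base_q4 _ (N _) (N _) (T _ _ _) (T _ _ _)))
    (base_q4 _ (N _) (T _ _ _) (T _ _ _) (T _ _ _)))
    (base_q4 _ (N _) (T _ _ _) (T _ _ _) (T _ _ _)))
    (base_q4 _ (T _ _ _) (T _ _ _) (T _ _ _) (T _ _ _)))
    (base_q4 _ (T _ _ _) (T _ _ _) (T _ _ _) (T _ _ _)))
    (base_q4 _ (T _ _ _) (N _) (T _ _ _) (N _)))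
    (base_q4 _ (T _ _ _) (N _) (T _ _ _) (T _ _ _)))
    (base_q4 _ (T _ _ _) (T _ _ _) (T _ _ _) (T _ _ _)))
    (base_q4 _ (T _ _ _) (T _ _ _) (T _ _ _) (T _ _ _)))
    (base_q4 _ (T _ _ _) (T _ _ _) (T _ _ _) (T _ _ _)))
    (base_q4 _ (T _ _ _) (T _ _ _) (T _ _ _) (N _)))
    (base_q4 _ (T _ _ _) (T _ _ _) (T _ _ _) (T _ _ _)))
    (base_q4 _ (T _ _ _) (T _ _ _) (T _ _ _) (T _ _ _)))
    (base_q4 _ (T _ _ _) (T _ _ _) (T _ _ _) (T _ _ _)))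
    (base_q4 _ (T _ _ _) (T _ _ _) (T _ _ _) (T _ _ _)))
    (base_q4 _ (T _ _ _) (T _ _ _) (T _ _ _) (T _ _ _)))
    (base_q4 _ (T _ _ _) (T _ _ _) (T _ _ _) (T _ _ _)))
    (base_q4 _ (T _ _ _) (T _ _ _) (T _ _ _) (T _ _ _)))

end Helper87.TC
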