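import Mathlib
import Pool.Agent.Helper87.TC.Defs
import Pool.Agent.Helper87.TC.St.Tri
import Pool.Agent.Helper87.TB.St.BinSp

/-!
# TC-Stab: the powers of the span of the norms are stable

* `stab_Ed`: for `n = 0` the space is the constants (`Ed` of a constant is `0`); for `n = 1`,
  `Ed (Fin 3) j l (nm 3 w) = (1/2) • tri w w (w l • ev j)` (compute: `Ed (Fin 3) j l (lin w i) = C (w l) * X (i, j) = lin (w l • ev j) i`,
  Leibniz rule for the product of three factors), so it is in `A1 3 3` by `tri_mem`; by linearity (`Submodule.span_induction`) for all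
  elements of `A1 3 3`; then induction on `n` with the Leibniz rule (`Submodule.mul_induction_on`, `pow_succ`).
* `stab_wc`: the component of degree `k` of a product is the sum over `i + j = k` of the products of the components
  (`MvPolynomial.IsWeightedHomogeneous`, or: write `x = ∑ i ∈ range N, comp_i x`, `y = ∑ j ∈ range N, comp_j y` with `N` large
  (`MvPolynomial.finsum_weightedHomogeneousComponent` or `sum_weightedHomogeneousComponent`) and
  `weightedHomogeneousComponent_of_mem`).  For `nm 3 w`: with `w' = w` with last coordinate replaced by `0` and `w'' = w 2 • ev 2`, `lin w i = lin w' i + lin w'' i`,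
  the first of weight `0`, the second of weight `1`; the components are `nm 3 w'`, `(1/2) • tri w' w' w''`, `(1/2) • tri w' w'' w''`, `nm 3 w''` (all in `A1 3 3`).
* `bx_A1`: `bx 0 = nm (ev 0)`, `bx 1 = (1/2) • tri (ev 0) (ev 0) (ev 1)`, `bx 2 = (1/2) • tri (ev 0) (ev 1) (ev 1)`, `bx 3 = nm (ev 1)`.
* `B_le`: from `bin_pow` (`TB/St/BinSp.lean`) and `bx_A1`.
-/

set_option autoImplicit false

open MvPolynomial Finset

namespace Helper87.TC

open Helper87.TR Helper87.TA Helper87.TB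

theorem tcstab_Ed_X (j l : Fin 3) (i k : Fin 3) :
    Ed (Fin 3) j l (X (i, k) : MvPolynomial (Fin 3 × Fin 3) ℚ) = if k = l then X (i, j) else 0 := by
  unfold Ed
  change Derivation.coeFnAddMonoidHom (∑ s : Fin 3, (X (s, j) : MvPolynomial (Fin 3 × Fin 3) ℚ) • pderiv (s, l))
    (X (i, k)) = _
  rw [map_sum, Finset.sum_apply]
  simp only [Derivation.coeFnAddMonoidHom_apply]
  by_cases hk : k = l
  · subst hk
    rw [if_pos rfl, Finset.sum_eq_single i]
    · rw [Derivation.smul_apply, pderiv_X_self, smul_eq_mul, mul_one]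
    · intro b _ hb
      rw [Derivation.smul_apply, pderiv_X_of_ne, smul_zero]
      intro h
      exact hb (Prod.ext_iff.1 h).1.symm
    · intro h
      exact absurd (Finset.mem_univ _) h
  · rw [if_neg hk]
    apply Finset.sum_eq_zero
    intro b _
    rw [Derivation.smul_apply, pderiv_X_of_ne, smul_zero]
    intro h
    exact hk (Prod.ext_iff.1 h).2

theorem tcstab_lin_smul_ev (c : ℚ) (j i : Fin 3) :
    (lin (c • ev j) i : MvPolynomial (Fin 3 × Fin 3) ℚ) = C c * X (i, j) := by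
  unfold lin ev
  rw [Finset.sum_eq_single j]
  · rw [Pi.smul_apply, if_pos rfl, smul_eq_mul, mul_one]
  · intro k _ hk
    rw [Pi.smul_apply, if_neg hk, smul_zero, C_0, zero_mul]
  · intro h
    exact absurd (Finset.mem_univ j) h

theorem tcstab_Ed_lin (j l : Fin 3) (w : Fin 3 → ℚ) (i : Fin 3) :
    Ed (Fin 3) j l (lin w i) = lin (w l • ev j) i := by
  rw [tcstab_lin_smul_ev]
  unfold lin
  rw [map_sum, Finset.sum_eq_single l]
  · rw [← smul_eq_C_mul, Derivation.map_smul, tcstab_Ed_X, if_pos rfl, smul_eq_C_mul]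
  · intro k _ hk
    rw [← smul_eq_C_mul, Derivation.map_smul, tcstab_Ed_X, if_neg hk, smul_zero]
  · intro h
    exact absurd (Finset.mem_univ l) h

theorem tcstab_half (u v w : Fin 3 → ℚ) (x : MvPolynomial (Fin 3 × Fin 3) ℚ) (h : 2 * x = tri u v w) :
    x ∈ A1 3 3 := by
  have h2 : x = (1 / 2 : ℚ) • tri u v w := by
    rw [← h]
    have h3 : (2 : MvPolynomial (Fin 3 × Fin 3) ℚ) * x = (2 : ℚ) • x := by
      rw [smul_eq_C_mul]
      congr 1
    rw [h3, smul_smul]
    norm_num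
  rw [h2]
  exact Submodule.smul_mem _ _ (tri_mem u v w)

theorem tcstab_Ed_nm (j l : Fin 3) (w : Fin 3 → ℚ) : Ed (Fin 3) j l (nm 3 w) ∈ A1 3 3 := by
  apply tcstab_half w w (w l • ev j)
  rw [nm_three, Derivation.leibniz, Derivation.leibniz, tcstab_Ed_lin, tcstab_Ed_lin, tcstab_Ed_lin]
  unfold tri
  simp only [smul_eq_mul]
  ring

theorem tcstab_Ed_A1 (j l : Fin 3) (x : MvPolynomial (Fin 3 × Fin 3) ℚ) (hx : x ∈ A1 3 3) :
    Ed (Fin 3) j l x ∈ A1 3 3 := by
  unfold A1 at hx
  refine Submodule.span_induction ?_ ?_ ?_ ?_ hx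
  · rintro _ ⟨w, rfl⟩
    exact tcstab_Ed_nm j l w
  · rw [map_zero]
    exact zero_mem _
  · intro a b _ _ ha hb
    rw [map_add]
    exact add_mem ha hb
  · intro c a _ ha
    rw [Derivation.map_smul]
    exact Submodule.smul_mem _ _ ha

theorem stab_Ed (n : ℕ) (j l : Fin 3) (F : MvPolynomial (Fin 3 × Fin 3) ℚ) (hF : F ∈ A1 3 3 ^ n) :
    Ed (Fin 3) j l F ∈ A1 3 3 ^ n := by
  induction n generalizing F with
  | zero =>
    rw [pow_zero] at hF ⊢
    obtain ⟨c, rfl⟩ := Submodule.mem_one.1 hF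
    rw [Derivation.map_algebraMap]
    exact zero_mem _
  | succ n ih =>
    rw [pow_succ] at hF
    refine Submodule.mul_induction_on hF ?_ ?_
    · intro a ha b hb
      rw [Derivation.leibniz, smul_eq_mul, smul_eq_mul, mul_comm b, pow_succ]
      exact add_mem (Submodule.mul_mem_mul ha (tcstab_Ed_A1 j l b hb)) (Submodule.mul_mem_mul (ih a ha) hb)
    · intro a b ha hb
      rw [map_add]
      exact add_mem ha hb

/-- the homogeneous elements of a submodule -/
def tcstab_H (S : Submodule ℚ (MvPolynomial (Fin 3 × Fin 3) ℚ)) : Set (MvPolynomial (Fin 3 × Fin 3) ℚ) :=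
  {x | x ∈ S ∧ ∃ k, IsWeightedHomogeneous (wt (Fin 3)) x k}

theorem tcstab_lin_wt0 (w : Fin 3 → ℚ) (h : w 2 = 0) (i : Fin 3) :
    IsWeightedHomogeneous (wt (Fin 3)) (lin w i : MvPolynomial (Fin 3 × Fin 3) ℚ) 0 := by
  unfold lin
  refine IsWeightedHomogeneous.sum _ _ _ ?_
  intro k _
  by_cases hk : k = 2
  · subst hk
    rw [h, C_0, zero_mul]
    exact isWeightedHomogeneous_zero _ _ _
  · exact (tbfacts_X_wt0 i k hk).C_mul _

theorem tcstab_lin_wt1 (c : ℚ) (i : Fin 3) :
    IsWeightedHomogeneous (wt (Fin 3)) (lin (c • ev 2) i : MvPolynomial (Fin 3 × Fin 3) ℚ) 1 := by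
  rw [tcstab_lin_smul_ev]
  exact (tbfacts_X_wt1 i).C_mul _

theorem tcstab_nm_H (w : Fin 3 → ℚ) : nm 3 w ∈ Submodule.span ℚ (tcstab_H (A1 3 3)) := by
  have hw : w = (fun i => if i = 2 then 0 else w i) + w 2 • ev 2 := by
    funext i
    rw [Pi.add_apply, Pi.smul_apply]
    unfold ev
    by_cases hi : i = 2
    · subst hi
      simp
    · simp [hi]
  set u : Fin 3 → ℚ := fun i => if i = 2 then 0 else w i with hu
  set v : Fin 3 → ℚ := w 2 • ev 2 with hv
  have hu2 : u 2 = 0 := by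
    rw [hu]
    simp
  have hl0 : ∀ i, IsWeightedHomogeneous (wt (Fin 3)) (lin u i : MvPolynomial (Fin 3 × Fin 3) ℚ) 0 :=
    fun i => tcstab_lin_wt0 u hu2 i
  have hl1 : ∀ i, IsWeightedHomogeneous (wt (Fin 3)) (lin v i : MvPolynomial (Fin 3 × Fin 3) ℚ) 1 :=
    fun i => tcstab_lin_wt1 (w 2) i
  have hsum : nm 3 w = nm 3 u + (lin u 0 * lin u 1 * lin v 2 + lin u 0 * lin v 1 * lin u 2 + lin v 0 * lin u 1 * lin u 2) +
      (lin u 0 * lin v 1 * lin v 2 + lin v 0 * lin u 1 * lin v 2 + lin v 0 * lin v 1 * lin u 2) + nm 3 v := by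
    have h1 : nm 3 w = nm 3 (u + v) := congrArg _ hw
    rw [h1, nm_three, nm_three, nm_three, tri_lin_add, tri_lin_add, tri_lin_add]
    ring
  rw [hsum]
  refine add_mem (add_mem (add_mem ?_ ?_) ?_) ?_
  · refine Submodule.subset_span ⟨nm_mem u, 0, ?_⟩
    rw [nm_three]
    exact ((hl0 0).mul (hl0 1)).mul (hl0 2)
  · refine Submodule.subset_span ⟨?_, 1, ?_⟩
    · apply tcstab_half u u v
      unfold tri
      ring
    · refine ((?_ : IsWeightedHomogeneous _ _ _).add ?_).add ?_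
      · exact ((hl0 0).mul (hl0 1)).mul (hl1 2)
      · exact ((hl0 0).mul (hl1 1)).mul (hl0 2)
      · exact ((hl1 0).mul (hl0 1)).mul (hl0 2)
  · refine Submodule.subset_span ⟨?_, 2, ?_⟩
    · apply tcstab_half u v v
      unfold tri
      ring
    · refine ((?_ : IsWeightedHomogeneous _ _ _).add ?_).add ?_
      · exact ((hl0 0).mul (hl1 1)).mul (hl1 2)
      · exact ((hl1 0).mul (hl0 1)).mul (hl1 2)
      · exact ((hl1 0).mul (hl1 1)).mul (hl0 2)
  · refine Submodule.subset_span ⟨nm_mem v, 3, ?_⟩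
    rw [nm_three]
    exact ((hl1 0).mul (hl1 1)).mul (hl1 2)

theorem tcstab_A1_H : A1 3 3 ≤ Submodule.span ℚ (tcstab_H (A1 3 3)) := by
  conv_lhs => unfold A1
  rw [Submodule.span_le]
  rintro _ ⟨w, rfl⟩
  exact tcstab_nm_H w

theorem tcstab_pow_H (n : ℕ) : A1 3 3 ^ n ≤ Submodule.span ℚ (tcstab_H (A1 3 3 ^ n)) := by
  induction n with
  | zero =>
    rw [pow_zero]
    intro x hx
    obtain ⟨c, rfl⟩ := Submodule.mem_one.1 hx
    refine Submodule.subset_span ⟨Submodule.mem_one.2 ⟨c, rfl⟩, 0, ?_⟩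
    exact isWeightedHomogeneous_C _ _
  | succ n ih =>
    have h1 : A1 3 3 ^ (n + 1) ≤ Submodule.span ℚ (tcstab_H (A1 3 3 ^ n)) * Submodule.span ℚ (tcstab_H (A1 3 3)) := by
      rw [pow_succ]
      exact mul_le_mul' ih tcstab_A1_H
    refine h1.trans ?_
    rw [Submodule.span_mul_span]
    refine Submodule.span_mono ?_
    rintro _ ⟨a, ⟨ha, k, hk⟩, b, ⟨hb, l, hl⟩, rfl⟩
    refine ⟨?_, k + l, hk.mul hl⟩
    rw [pow_succ]
    exact Submodule.mul_mem_mul ha hb

theorem stab_wc (n k : ℕ) (F : MvPolynomial (Fin 3 × Fin 3) ℚ) (hF : F ∈ A1 3 3 ^ n) :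
    weightedHomogeneousComponent (wt (Fin 3)) k F ∈ A1 3 3 ^ n := by
  refine Submodule.span_induction ?_ ?_ ?_ ?_ (tcstab_pow_H n hF)
  · rintro x ⟨hx, m, hm⟩
    by_cases h : k = m
    · subst h
      rw [IsWeightedHomogeneous.weightedHomogeneousComponent_same hm]
      exact hx
    · rw [IsWeightedHomogeneous.weightedHomogeneousComponent_ne k hm h]
      exact zero_mem _
  · rw [map_zero]
    exact zero_mem _
  · intro a b _ _ ha hb
    rw [map_add]
    exact add_mem ha hb
  · intro c a _ ha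
    rw [map_smul]
    exact Submodule.smul_mem _ _ ha

theorem bx_A1 (b : Fin 4) : bx b ∈ A1 3 3 := by
  have hb : b = 0 ∨ b = 1 ∨ b = 2 ∨ b = 3 := by
    revert b
    decide
  rcases hb with hb | hb | hb | hb
  · subst hb
    have h : bx 0 = nm 3 (ev 0) := by
      rw [tbbinsp_bx0, nm_three]
      unfold tbbinsp_mo
      simp only [tri_lin_ev, Nat.sub_self, Nat.sub_zero, pow_zero, pow_one, mul_one, one_mul]
    rw [h]
    exact nm_mem _
  · subst hb
    apply tcstab_half (ev 0) (ev 0) (ev 1)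
    rw [tbbinsp_bx1]
    unfold tbbinsp_mo tri
    simp only [tri_lin_ev, Nat.sub_self, Nat.sub_zero, pow_zero, pow_one, mul_one, one_mul]
    ring
  · subst hb
    apply tcstab_half (ev 0) (ev 1) (ev 1)
    rw [tbbinsp_bx2]
    unfold tbbinsp_mo tri
    simp only [tri_lin_ev, Nat.sub_self, Nat.sub_zero, pow_zero, pow_one, mul_one, one_mul]
    ring
  · subst hb
    have h : bx 3 = nm 3 (ev 1) := by
      rw [tbbinsp_bx3, nm_three]
      unfold tbbinsp_mo
      simp only [tri_lin_ev, Nat.sub_self, Nat.sub_zero, pow_zero, pow_one, mul_one, one_mul]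
    rw [h]
    exact nm_mem _

theorem B_le (n : ℕ) : B n 0 ≤ A1 3 3 ^ n := by
  refine (bin_pow n).trans (pow_le_pow_left' (a := Submodule.span ℚ (Set.range bx)) (b := A1 3 3) ?_ n)
  rw [Submodule.span_le]
  rintro _ ⟨b, rfl⟩
  exact bx_A1 b

end Helper87.TC
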