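import Mathlib
import Pool.Agent.Helper87.TC.Defs
import Pool.Agent.Helper87.TC.St.Base
import Pool.Agent.Helper87.TC.St.Stab
import Pool.Agent.Helper87.TB.St.Ortho
import Pool.Agent.Helper87.TB.St.Struct
import Pool.Agent.Helper87.TB.St.BinSp

/-!
# TC-Howe: for `n ≥ 3` the multisymmetric polynomials are generated by the norms
-/

set_option autoImplicit false

open MvPolynomial Finset

namespace Helper87.TC

open Helper87.TA Helper87.TB

/-- even powers of the determinant -/
theorem howe_even (j : ℕ) : Dl ^ (2 * j + 4) ∈ A1 3 3 ^ (2 * j + 4) := by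
  induction j with
  | zero => exact base_four
  | succ j ih =>
    have h1 := hess_mul (2 * j + 4) (by omega) _ ih
    rw [← pow_add] at h1
    have h2 : 2 + (2 * j + 4) = 2 * (j + 1) + 4 := by omega
    have h3 : 2 * j + 4 + 2 = 2 * (j + 1) + 4 := by omega
    rwa [h2, h3] at h1

/-- odd powers of the determinant times the discriminant -/
theorem howe_odd (j : ℕ) : Dl ^ (2 * j + 1) * DD ∈ A1 3 3 ^ (2 * j + 3) := by
  induction j with
  | zero =>
    rw [Nat.mul_zero, Nat.zero_add, Nat.zero_add, pow_one]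
    exact base_DD
  | succ j ih =>
    have h1 := hess_mul (2 * j + 3) (by omega) _ ih
    rw [← mul_assoc, ← pow_add] at h1
    have h2 : 2 + (2 * j + 1) = 2 * (j + 1) + 1 := by omega
    have h3 : 2 * j + 3 + 2 = 2 * (j + 1) + 3 := by omega
    rwa [h2, h3] at h1

theorem howe_B (n k l : ℕ) (h : k % 2 = l % 2) : B n k = B n l := by
  unfold B
  rw [Eqs_parity 3 3 k l h]

theorem howe (n : ℕ) (hn : 3 ≤ n) : RH 3 (fun _ : Fin 3 => n) ⊓ Eqs 3 3 0 ≤ A1 3 3 ^ n := by
  refine ortho n (A1 3 3 ^ n) (fun F hF => stab_Ed n 2 0 F hF) (fun F hF => stab_Ed n 2 1 F hF)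
    (fun k F hF => stab_wc n k F hF) ?_
  intro k F hF hs hw h0 h1
  by_cases hne : F = 0
  · rw [hne]
    exact zero_mem _
  obtain ⟨hkn, F', hF', hFF⟩ := hw_struct2 n k F hF hs hw h0 h1 hne
  rw [hFF]
  rcases Nat.even_or_odd' k with ⟨j, hj | hj⟩
  · rw [howe_B (n - k) k 0 (by omega)] at hF'
    have h2 := B_le (n - k) hF'
    rcases Nat.lt_or_ge j 2 with hj2 | hj2
    · interval_cases j
      · have h3 : k = 0 := hj
        rw [h3] at h2 ⊢
        rw [pow_zero, one_mul]
        exact h2
      · have h3 : k = 2 := hj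
        rw [h3] at h2 ⊢
        have h4 := hess_mul (n - 2) (by omega) _ h2
        rwa [show n - 2 + 2 = n by omega] at h4
    · obtain ⟨i, rfl⟩ : ∃ i, j = i + 2 := ⟨j - 2, by omega⟩
      have h3 := howe_even i
      have h4 : 2 * i + 4 = k := by omega
      rw [h4] at h3
      have h5 := Submodule.mul_mem_mul h3 h2
      rwa [← pow_add, show k + (n - k) = n by omega] at h5
  · rw [howe_B (n - k) k 1 (by omega)] at hF'
    by_cases hF0 : F' = 0
    · rw [hF0, mul_zero]
      exact zero_mem _
    obtain ⟨h2n, F'', hF'', hFF''⟩ := anti_div (n - k) F' hF' hF0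
    rw [hFF'', ← mul_assoc]
    have h2 := B_le (n - k - 2) hF''
    have h3 := howe_odd j
    rw [← hj] at h3
    have h5 := Submodule.mul_mem_mul h3 h2
    rwa [← pow_add, show 2 * j + 3 + (n - k - 2) = n by omega] at h5

end Helper87.TC
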